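import Pool.Agent.EVF.StmtsH

/-!
# Squad EVF, row GM2: the Gram matrix and the height of one member, with sharp weights
-/

namespace Pool.Agent.EVF.H15

open MvPolynomial MeasureTheory Matrix
open scoped ComplexOrder

lemma support_cpx {G : MvPolynomial (Fin 2) ℤ} {e : Fin 2 →₀ ℕ} (h : e ∈ (cpx G).support) :
    e ∈ G.support := by
  rw [mem_support_iff, coeff_cpx] at h
  rw [mem_support_iff]
  intro h0
  apply h
  rw [h0]
  simp

lemma expo2_self (e : Fin 2 →₀ ℕ) :
    Finsupp.single 0 (e 0) + Finsupp.single 1 (e 1) = e := by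
  ext i
  fin_cases i
  · simp
  · simp

/-- the exponents in question -/
noncomputable def slots (s : ℕ) : Finset (Fin 2 →₀ ℕ) :=
  (Finset.range s ×ˢ Finset.range s).image
    fun a => Finsupp.single 0 a.1 + Finsupp.single 1 a.2

lemma mem_slots {s : ℕ} {e : Fin 2 →₀ ℕ} (h0 : e 0 < s) (h1 : e 1 < s) : e ∈ slots s := by
  unfold slots
  rw [Finset.mem_image]
  exact ⟨(e 0, e 1), Finset.mem_product.mpr ⟨Finset.mem_range.mpr h0, Finset.mem_range.mpr h1⟩,
    expo2_self e⟩

lemma hol_slots {r : ℕ} {s : Shape r} (hs : s.Good) {N : Mat r} {q : Vec r} (h : q ∈ Hol s N)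
    (i : Fin r) (e : Fin 2 →₀ ℕ) (he : e ∈ (q i).support) : e ∈ slots (2 * s.deg) := by
  have h1 := h.1 i e he
  have h2 : s.D i ≤ s.deg :=
    Finset.single_le_sum (f := s.D) (fun _ _ => Nat.zero_le _) (Finset.mem_univ i)
  have h3 : e 0 + 1 ≤ s.u * (e 0 + 1) := Nat.le_mul_of_pos_left _ hs.u_pos
  have h4 : e 1 + 1 ≤ s.v * (e 1 + 1) := Nat.le_mul_of_pos_left _ hs.v_pos
  apply mem_slots <;> omega

/-- the triple of a slot -/
def trip {r : ℕ} (x : Fin r × (Fin 2 →₀ ℕ)) : Fin r × ℕ × ℕ := (x.1, x.2 0, x.2 1)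

lemma trip_inj {r : ℕ} {x y : Fin r × (Fin 2 →₀ ℕ)} (h : trip x = trip y) : x = y := by
  have h1 : x.1 = y.1 := congrArg (fun z : Fin r × ℕ × ℕ => z.1) h
  have h2 : x.2 0 = y.2 0 := congrArg (fun z : Fin r × ℕ × ℕ => z.2.1) h
  have h3 : x.2 1 = y.2 1 := congrArg (fun z : Fin r × ℕ × ℕ => z.2.2) h
  refine Prod.ext h1 ?_
  rw [← expo2_self x.2, ← expo2_self y.2, h2, h3]

/-- GM2 -/
theorem gm2 (hlow : Lo2Stmt) (hdet : De2Stmt) (hher : HerStmt) (hhsm : HsmStmt)
    (hzba : ZbaStmt) : Gm2Stmt := by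
  intro r s hs
  obtain ⟨C₂, hzba'⟩ := hzba r s hs
  obtain ⟨C₁, c, hC₁, hlow'⟩ := hlow r s hs
  classical
  set T : Finset (Fin r × (Fin 2 →₀ ℕ)) :=
    (Finset.univ ×ˢ slots (2 * s.deg)).filter (fun x => s.Slot (trip x)) with hT
  set L : ℕ := T.card with hL
  have hE : 0 ≤ Real.log (C₁ * (L + 1)) := by
    apply Real.log_nonneg
    have : (0 : ℝ) ≤ L := Nat.cast_nonneg _
    nlinarith
  refine ⟨|C₂| + |C₂| * c + |C₂| * Real.log (C₁ * (L + 1)), ?_⟩
  intro N hsymm hdeg hred b Q θ hb hQ hθ hθ1 hcoef htop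
  have hb0 : 0 < b := by linarith
  have hQ0 : 0 < Q := by linarith
  have hN : Shaped s (cmat N) := by
    refine ⟨fun i j => ?_, fun i j e he => hdeg i j e (support_cpx he), ?_⟩
    · rw [cmat_apply, cmat_apply, hsymm i j]
    · rw [cmat_det, coeff_cpx]
      intro h0
      have h1 : coeff (topE s) (F N) = 0 := by exact_mod_cast h0
      rw [h1] at htop
      have h2 : 0 < θ * b ^ (2 * s.wt) := by positivity
      simp at htop
      linarith
  have hS : Sized s (cmat N) b Q θ := by
    refine ⟨hb, hQ, hθ, hθ1, fun i j e => ?_, ?_⟩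
    · rw [cmat_apply, coeff_cpx, Complex.norm_intCast]
      exact hcoef i j e
    · rw [cmat_det, coeff_cpx, Complex.norm_intCast]
      exact htop
  obtain ⟨hint, S, hSm⟩ := hhsm r s N hs hN hred
  obtain ⟨n, bas, hn, hli, hspan⟩ := hzba' S (fun q hq => ((hSm q).mp hq).1)
  have hbas : ∀ j, bas j ∈ Hol s N := by
    intro j
    rw [← hSm, ← hspan]
    exact Submodule.subset_span ⟨j, rfl⟩
  set K : ℝ := C₁ * (Q / θ) ^ c with hK
  have hK0 : 0 < K := by
    have : 0 < C₁ := by linarith
    positivity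
  set en := T.equivFin.symm with hen
  set w : Fin L → ℝ := fun ι =>
    (b ^ (s.α * ((en ι).1.2 0 + 1) + s.β * ((en ι).1.2 1 + 1)) /
      b ^ (s.wt + s.m (en ι).1.1)) ^ 2 with hw
  have hw0 : ∀ ι, 0 < w ι := by
    intro ι
    rw [hw]
    positivity
  have hB : ∀ a : Fin n → ℤ,
      (∀ ι : Fin L, ∑ j, a j * coeff (en ι).1.2 (bas j (en ι).1.1) = 0) → a = 0 := by
    intro a ha
    have h1 : ∑ j, a j • bas j = 0 := by
      funext i
      rw [Finset.sum_apply, Pi.zero_apply]
      ext e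
      rw [coeff_sum, coeff_zero]
      by_cases he : (i, e) ∈ T
      · have h2 := ha (T.equivFin ⟨(i, e), he⟩)
        rw [hen, Equiv.symm_apply_apply] at h2
        rw [← h2]
        apply Finset.sum_congr rfl
        intro j _
        rw [Pi.smul_apply, coeff_smul, smul_eq_mul]
      · apply Finset.sum_eq_zero
        intro j _
        rw [Pi.smul_apply, coeff_smul, smul_eq_mul]
        have h2 : coeff e (bas j i) = 0 := by
          by_contra h3
          apply he
          rw [hT, Finset.mem_filter, Finset.mem_product]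
          exact ⟨⟨Finset.mem_univ _, hol_slots hs (hbas j) i e (mem_support_iff.mpr h3)⟩,
            (hbas j).1 i e (mem_support_iff.mpr h3)⟩
        rw [h2, mul_zero]
    funext j
    exact Fintype.linearIndependent_iff.mp hli a h1 j
  obtain ⟨hpd, I, hI, hdetL⟩ := hdet n L (gram N bas)
    (fun ι j => coeff (en ι).1.2 (bas j (en ι).1.1)) w K hK0 hw0 (hher r n N bas) hB (by
      intro v ι
      have h1 := hlow' N b Q θ hN hS hred n bas hbas v (en ι).1.1 (en ι).1.2
      have h2 : 0 < (b ^ (s.wt + s.m (en ι).1.1)) ^ 2 := by positivity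
      rw [hw]
      dsimp only
      rw [div_pow, ← mul_div_assoc, div_le_iff₀ h2]
      calc _ ≤ _ := h1
        _ = _ := by rw [hK]; ring)
  have habs : (n : ℝ) ≤ |C₂| := hn.trans (le_abs_self _)
  have hA0 : 0 ≤ |C₂| := abs_nonneg _
  have hl0 : 0 ≤ Real.log Q - Real.log θ := by
    have h1 := Real.log_nonneg hQ
    have h2 := Real.log_nonpos hθ.le hθ1
    linarith
  have hinj : Function.Injective (fun ι : Fin L => trip (en ι).1) := by
    intro ι ι' h
    exact en.injective (Subtype.ext (trip_inj h))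
  refine ⟨n, bas, I.image (fun ι : Fin L => trip (en ι).1), ?_, ?_, ?_, ⟨hli, fun q => ?_⟩,
    fun i j => hint _ (hbas i) _ (hbas j), hpd, ?_⟩
  · have : 0 ≤ |C₂| * (c : ℝ) := by positivity
    have : 0 ≤ |C₂| * Real.log (C₁ * (L + 1)) := by positivity
    linarith
  · rw [Finset.card_image_of_injective _ hinj, hI]
  · intro x hx
    obtain ⟨ι, -, rfl⟩ := Finset.mem_image.mp hx
    exact (Finset.mem_filter.mp (en ι).2).2
  · rw [← hSm, hspan]
  · rw [Finset.sum_image (fun x _ y _ h => hinj h)]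
    have hd : 0 < (gram N bas).det.re := by
      have h1 := hpd.det_pos
      rw [Complex.lt_def] at h1
      exact h1.1
    have hKL : 0 < K * (L + 1) := by positivity
    have hprod : 0 < ∏ ι ∈ I, w ι := Finset.prod_pos fun ι _ => hw0 ι
    have h1 := Real.log_le_log hprod hdetL
    rw [Real.log_mul (by positivity) hd.ne', Real.log_pow,
      Real.log_prod (fun ι _ => (hw0 ι).ne')] at h1
    have h2 : Real.log (K * (L + 1)) =
        Real.log (C₁ * (L + 1)) + c * (Real.log Q - Real.log θ) := by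
      have hC0 : (0 : ℝ) < C₁ := by linarith
      have hL1 : (0 : ℝ) < (L : ℝ) + 1 := by positivity
      rw [hK, Real.log_mul (by positivity) hL1.ne', Real.log_mul hC0.ne' (by positivity),
        Real.log_pow, Real.log_div hQ0.ne' hθ.ne', Real.log_mul hC0.ne' hL1.ne']
      ring
    have h0 : ∑ ι ∈ I, Real.log (w ι) =
        -2 * ((∑ ι ∈ I, s.omega (trip (en ι).1)) * Real.log b) := by
      rw [Finset.sum_mul, Finset.mul_sum]
      apply Finset.sum_congr rfl
      intro ι _
      rw [hw]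
      dsimp only
      rw [Real.log_pow, Real.log_div (by positivity) (by positivity), Real.log_pow, Real.log_pow]
      unfold Shape.omega trip
      push_cast
      ring
    rw [h2, h0] at h1
    unfold hW
    have hn0 : (0 : ℝ) ≤ n := Nat.cast_nonneg _
    have h3 : (n : ℝ) * Real.log (C₁ * (L + 1)) ≤ |C₂| * Real.log (C₁ * (L + 1)) :=
      mul_le_mul_of_nonneg_right habs hE
    have h4 : (n : ℝ) * (c * (Real.log Q - Real.log θ)) ≤
        |C₂| * (c * (Real.log Q - Real.log θ)) := by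
      apply mul_le_mul_of_nonneg_right habs
      positivity
    have h5 : 0 ≤ (|C₂| + |C₂| * Real.log (C₁ * (L + 1))) * (Real.log Q - Real.log θ) := by
      positivity
    have h6 : 0 ≤ |C₂| * c := by positivity
    have h7 : 0 ≤ (n : ℝ) * Real.log (C₁ * (L + 1)) := by positivity
    have h8 : 0 ≤ |C₂| * (c * (Real.log Q - Real.log θ)) := by positivity
    nlinarith

end Pool.Agent.EVF.H15
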